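import Pool.Agent.H560Elem.Final

namespace Pool.Agent.Results.MP_2a6a08_co.OrderOfExcess

open Pool.Agent.H560Elem

/-- Two-sided estimate for `e k` between consecutive Fibonacci numbers: for every `ε > 0` there is
`c > 0` such that for all large `n`, all `k` with `f_n < k < f_{n+1}`, with at most `f_n ^ ε`
exceptions, satisfy `n + c n / log n ≤ e k ≤ n + 22 n / log n`, and the upper bound has no
exceptions. -/
theorem result : ∀ ε : ℝ, 0 < ε → ∃ c : ℝ, 0 < c ∧ ∃ n₀ : ℕ, ∀ n ≥ n₀,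
    (∀ k ∈ Finset.Ioo (Nat.fib n) (Nat.fib (n + 1)),
      (e k : ℝ) ≤ n + 22 * n / Real.log n) ∧
    (((Finset.Ioo (Nat.fib n) (Nat.fib (n + 1))).filter
      (fun k => (e k : ℝ) < n + c * n / Real.log n)).card : ℝ) ≤ (Nat.fib n : ℝ) ^ ε := by
  intro ε hε
  obtain ⟨c, hc, n₀, h⟩ := lower ε hε
  refine ⟨c, hc, max n₀ 16, fun n hn => ⟨fun k hk => ?_, h n (le_trans (le_max_left _ _) hn)⟩⟩
  rw [Finset.mem_Ioo] at hk
  exact e_le_real n (le_trans (le_max_right _ _) hn) k (by omega) hk.2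

end Pool.Agent.Results.MP_2a6a08_co.OrderOfExcess
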